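import Pool.Agent.P.MP_daa8d5_co.An.Main

set_option autoImplicit false

namespace Pool.Agent.Results.MP_daa8d5_co.AntiThree

/-- Any `(m - 1) * 3 + (m - 2) + 1` points of `ℝ^3` without a point of Tukey depth `m` can be split
into `m` classes, `m - 2` of them special, so that the hull of every class has a point lying in the
hulls of all the special classes. -/
theorem result :
    ∀ m : ℕ, 3 ≤ m →
      ∀ S : Finset (EuclideanSpace ℝ (Fin 3)), S.card = (m - 1) * 3 + (m - 2) + 1 →
        (∀ z : EuclideanSpace ℝ (Fin 3), ∃ v : EuclideanSpace ℝ (Fin 3),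
          {x : EuclideanSpace ℝ (Fin 3) | x ∈ S ∧ inner ℝ v z ≤ inner ℝ v x}.ncard < m) →
        ∃ c : EuclideanSpace ℝ (Fin 3) → Fin m, ∃ T : Finset (Fin m), T.card = m - 2 ∧
          ∀ j : Fin m, ∃ y ∈ convexHull ℝ {x : EuclideanSpace ℝ (Fin 3) | x ∈ S ∧ c x = j},
            ∀ i ∈ T, y ∈ convexHull ℝ {x : EuclideanSpace ℝ (Fin 3) | x ∈ S ∧ c x = i} :=
  fun m hm S hS h => Pool.Agent.P.MP_daa8d5_co.An.main m hm S (by omega) h

end Pool.Agent.Results.MP_daa8d5_co.AntiThree
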