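import Pool.Agent.P.MP_daa8d5_co.Lg.Main

set_option autoImplicit false

namespace Pool.Agent.Results.MP_daa8d5_co.LargeM

/-- For every `d` and `η > 0` there is `C` such that any `(⌊d/2⌋ + 1 + η) m + C t` points of `ℝ^d`
can be split into `m` classes, `t` of them special, so that the hull of every class has a point
lying in the hulls of all the special classes. -/
theorem result :
    ∀ (d : ℕ) (η : ℝ), 0 < η → ∃ C : ℕ, ∀ m t : ℕ, t < m →
      ∀ S : Finset (EuclideanSpace ℝ (Fin d)),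
        (((d / 2 + 1 : ℕ) : ℝ) + η) * (m : ℝ) + (C : ℝ) * (t : ℝ) ≤ (S.card : ℝ) →
        ∃ c : EuclideanSpace ℝ (Fin d) → Fin m, ∃ T : Finset (Fin m), T.card = t ∧
          ∀ j : Fin m, ∃ y ∈ convexHull ℝ {x : EuclideanSpace ℝ (Fin d) | x ∈ S ∧ c x = j},
            ∀ i ∈ T, y ∈ convexHull ℝ {x : EuclideanSpace ℝ (Fin d) | x ∈ S ∧ c x = i} :=
  fun d η hη => Pool.Agent.P.MP_daa8d5_co.Lg.main d η hη

end Pool.Agent.Results.MP_daa8d5_co.LargeM
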