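import Pool.Agent.P.MP_daa8d5_co.Main

set_option autoImplicit false

namespace Pool.Agent.Results.MP_daa8d5_co.MdPlusT

/-- Any `m * d + t` points of `ℝ^d` can be split into `m` classes, `t` of them special, so that
the hull of every class has a point lying in the hulls of all the special classes. -/
theorem result :
    ∀ d m t : ℕ, 1 ≤ d → t < m →
      ∀ S : Finset (EuclideanSpace ℝ (Fin d)), m * d + t ≤ S.card →
        ∃ c : EuclideanSpace ℝ (Fin d) → Fin m, ∃ T : Finset (Fin m), T.card = t ∧
          ∀ j : Fin m, ∃ y ∈ convexHull ℝ {x : EuclideanSpace ℝ (Fin d) | x ∈ S ∧ c x = j},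
            ∀ i ∈ T, y ∈ convexHull ℝ {x : EuclideanSpace ℝ (Fin d) | x ∈ S ∧ c x = i} :=
  fun d m t hd ht S hS => Pool.Agent.P.MP_daa8d5_co.main d m t hd ht S hS

end Pool.Agent.Results.MP_daa8d5_co.MdPlusT
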