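import Pool.Agent.P.MP_daa8d5_co.Pl.All

set_option autoImplicit false

namespace Pool.Agent.Results.MP_daa8d5_co.Plane

/-- Any `(m - 1) * 2 + t + 1` points of the plane can be split into `m` classes, `t` of them
special, so that the hull of every class has a point lying in the hulls of all special classes. -/
theorem result :
    ∀ m t : ℕ, 1 ≤ t → t < m →
      ∀ S : Finset (EuclideanSpace ℝ (Fin 2)), (m - 1) * 2 + t + 1 ≤ S.card →
        ∃ c : EuclideanSpace ℝ (Fin 2) → Fin m, ∃ T : Finset (Fin m), T.card = t ∧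
          ∀ j : Fin m, ∃ y ∈ convexHull ℝ {x : EuclideanSpace ℝ (Fin 2) | x ∈ S ∧ c x = j},
            ∀ i ∈ T, y ∈ convexHull ℝ {x : EuclideanSpace ℝ (Fin 2) | x ∈ S ∧ c x = i} :=
  fun m t ht htm S hS =>
    Pool.Agent.P.MP_daa8d5_co.Pl.final Pool.Agent.P.MP_daa8d5_co.Pl.sall_holds m t ht htm S hS

end Pool.Agent.Results.MP_daa8d5_co.Plane
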